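import Pool.Agent.H.MP_9ce56d_lc.G
import Pool.Agent.Lib.helper26.CXFpt

namespace Pool.Agent.Results.MP_9ce56d_lc.Hard

open Pool.Agent.Lib.CX

/-- jobs (processing time, due date, weight) and a bound: some order of the jobs has total weighted tardiness
at most the bound -/
def TWT (a : List (ℕ × ℕ × ℕ) × ℤ) : Prop := ∃ σ : Equiv.Perm (Fin a.1.length),
  ∑ j, (a.1[j].2.2 : ℤ) * max 0 (((∑ i with σ i ≤ σ j, a.1[i].1 : ℕ) : ℤ) - a.1[j].2.1) ≤ a.2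

theorem result : NPHard (fun a : {a : List (ℕ × ℕ × ℕ) × ℤ // ∀ j ∈ a.1, 1 ≤ j.1 ∧ j.1 ≤ 170} => TWT a.1) ∧
    (FPT (fun a : {a : List (ℕ × ℕ × ℕ) × ℤ // ∀ j ∈ a.1, 1 ≤ j.1} => TWT a.1)
      (fun a => Finset.univ.sup fun j : Fin a.1.1.length => a.1.1[j].1) → ∀ A : List Bool → Prop, InNP A → InP A) := by
  classical
  refine ⟨H.MP_9ce56d_lc.hard, fun h A hA => ?_⟩
  obtain ⟨f, hf, e⟩ := H.MP_9ce56d_lc.hard A hA
  obtain ⟨p, g, q, -, k⟩ : FPT A fun _ => 0 := by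
    refine FPT.red (g := fun _ => 170) (R := fun a => ⟨(f a).1, fun j hj => ((f a).2 j hj).1⟩) ?_ (Computable.const _) ?_ ?_ h
    exacts [hf.cast fun _ => rfl, e, fun a => Finset.sup_le fun j _ => ((f a).2 _ (List.getElem_mem j.2)).2]
  refine ⟨fun a => decide (A a), ⟨p, Polynomial.C (g 0) * q, fun a => ?_⟩, by simp⟩
  obtain ⟨r, n, m, h1, h2, h3⟩ := k a
  obtain rfl : r = decide (A a) := by simp [← h3]
  exact ⟨n, m, by simpa using h1, h2⟩

end Pool.Agent.Results.MP_9ce56d_lc.Hard
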